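import Mathlib

namespace Pool.Agent.Results.MP_df609a_nt.Two

open Finset

/-- The geometric sum `1 + p + ... + p^a`. -/
def G (p a : ℕ) : ℕ := ∑ k ∈ range (a + 1), p ^ k

lemma Gsucc (p a : ℕ) : G p (a + 1) = G p a + p ^ (a + 1) := by
  simp [G, Finset.sum_range_succ]

lemma Gle (c p a : ℕ) (h : c + 1 ≤ p) : c * G p a ≤ (c + 1) * p ^ a := by
  induction a with
  | zero => simp [G]
  | succ a ih =>
    have h1 : (c + 1) * p ^ a ≤ p * p ^ a := Nat.mul_le_mul_right _ h
    rw [Gsucc, pow_succ]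
    nlinarith

lemma Geq (s a : ℕ) : s * G (s + 1) a + 1 = (s + 1) ^ (a + 1) := by
  induction a with
  | zero => simp [G]
  | succ a ih => rw [Gsucc, pow_succ (s + 1) (a + 1), ← ih]; ring

lemma Gge (p a : ℕ) : p ^ a ≤ G p a := by
  cases a with
  | zero => simp [G]
  | succ a => rw [Gsucc]; omega

lemma Gone (p a : ℕ) : 1 ≤ G p a := by
  induction a with
  | zero => simp [G]
  | succ a ih => rw [Gsucc]; omega

lemma Gtwo (p a : ℕ) : p + 1 ≤ G p (a + 1) := by
  have h1 := Gone p a
  have h2 : p ≤ p ^ (a + 1) := Nat.le_self_pow (by omega) _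
  rw [Gsucc]
  omega

lemma two (p q a b k : ℕ) (hp : p.Prime) (hq : q.Prime) (hpq : p < q) (hb : 1 ≤ b) (ha : 1 ≤ a)
    (h : G p a * G q b = k * (p ^ a * q ^ b) + 5) : False := by
  have hp2 := hp.two_le
  obtain ⟨b, rfl⟩ : ∃ b', b = b' + 1 := ⟨b - 1, by omega⟩
  obtain ⟨a, rfl⟩ : ∃ a', a = a' + 1 := ⟨a - 1, by omega⟩
  have hx : 0 < p ^ (a + 1) * q ^ (b + 1) := by have := hq.pos; positivity
  have hk : k ≤ 2 := by
    by_contra hk
    have m1 := Nat.mul_le_mul (Gle 1 p (a + 1) hp2) (Gle 2 q (b + 1) (by omega))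
    have m2 : 3 * (p ^ (a + 1) * q ^ (b + 1)) ≤ k * (p ^ (a + 1) * q ^ (b + 1)) :=
      Nat.mul_le_mul_right _ (by omega)
    nlinarith
  have p1 : p ≤ p ^ (a + 1) := Nat.le_self_pow (by omega) _
  have q1 : q ≤ q ^ (b + 1) := Nat.le_self_pow (by omega) _
  have g1 := Gone p a
  have g2 := Gone q b
  interval_cases k
  · have := Nat.mul_le_mul (Gtwo p a) (Gtwo q b)
    nlinarith
  · rw [Gsucc, Gsucc] at h
    nlinarith [Nat.mul_le_mul g1 g2, Nat.mul_le_mul g1 q1, Nat.mul_le_mul p1 g2]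
  · have hp3 : p = 2 := by
      by_contra h3
      have h5 : 5 ≤ q := hq.five_le_of_ne_two_of_ne_three (by omega) (by omega)
      have m1 := Nat.mul_le_mul (Gle 2 p (a + 1) (by omega)) (Gle 4 q (b + 1) h5)
      nlinarith
    subst hp3
    have hqo := hq.odd_of_ne_two (by omega)
    obtain ⟨s, rfl⟩ : ∃ s, q = s + 1 := ⟨q - 1, by omega⟩
    have e1 := Geq 1 (a + 1)
    have e2 := Geq s b
    rw [Gsucc (s + 1)] at h
    norm_num at e1
    have e3 : G 2 (a + 1) * G (s + 1) b = (s + 1) ^ (b + 1) + 5 := by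
      have : 2 * (2 ^ (a + 1) * (s + 1) ^ (b + 1)) = (G 2 (a + 1) + 1) * (s + 1) ^ (b + 1) := by
        rw [e1]; ring
      nlinarith
    have e4 : G (s + 1) b ∣ 6 := by
      have d1 : G (s + 1) b ∣ s * G (s + 1) b + 6 :=
        ⟨G 2 (a + 1), by rw [mul_comm (G _ b), e3]; omega⟩
      exact (Nat.dvd_add_right (Dvd.intro_left _ rfl)).mp d1
    have m1 := Nat.le_of_dvd (by norm_num) e4
    have e8 : (2 : ℕ) ^ (a + 1 + 1) = 4 * 2 ^ a := by ring
    rw [Nat.odd_iff] at hqo
    match b, e3, e4, m1 with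
    | 0, e3, _, _ =>
      have e6 : G (s + 1) 0 = 1 := by simp [G]
      rw [e6] at e3
      simp only [zero_add, pow_one, mul_one] at e3
      omega
    | 1, e3, e4, m1 =>
      have e6 : G (s + 1) 1 = s + 2 := by simp [G, Finset.sum_range_succ]; omega
      rw [e6] at e3 e4 m1
      have hs : s = 2 ∨ s = 4 := by omega
      rcases hs with rfl | rfl
      · omega
      · omega
    | b + 2, _, _, m1 =>
      rw [Gsucc] at m1
      have m2 := Gtwo (s + 1) b
      have m3 : s + 1 ≤ (s + 1) ^ (b + 1 + 1) := Nat.le_self_pow (by omega) _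
      omega

theorem result (n : ℕ) (h : (∑ d ∈ n.divisors, d) % n = 5) : 3 ≤ n.primeFactors.card := by
  by_contra hw
  have hn0 : n ≠ 0 := by rintro rfl; simp at h
  have h5 : 5 < n := h ▸ Nat.mod_lt _ (Nat.pos_of_ne_zero hn0)
  obtain ⟨k, h⟩ : ∃ k, ∑ d ∈ n.divisors, d = k * n + 5 :=
    ⟨(∑ d ∈ n.divisors, d) / n, by rw [← h, mul_comm, Nat.div_add_mod]⟩
  rw [Nat.sum_divisors hn0] at h
  change ∏ p ∈ n.primeFactors, G p (n.factorization p) = _ at h
  have hs : ∏ p ∈ n.primeFactors, p ^ n.factorization p = n := by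
    conv_rhs => rw [← Nat.prod_factorization_pow_eq_self hn0, Finsupp.prod,
      Nat.support_factorization]
  have hf : ∀ p ∈ n.primeFactors, p.Prime ∧ 1 ≤ n.factorization p := fun p hp =>
    ⟨Nat.prime_of_mem_primeFactors hp, (Nat.prime_of_mem_primeFactors hp).factorization_pos_of_dvd
      hn0 (Nat.dvd_of_mem_primeFactors hp)⟩
  have hc : n.primeFactors.card = 0 ∨ n.primeFactors.card = 1 ∨ n.primeFactors.card = 2 := by omega
  rcases hc with hc | hc | hc
  · rw [Finset.card_eq_zero] at hc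
    rw [hc] at hs
    simp at hs
    omega
  · obtain ⟨p, hp⟩ := Finset.card_eq_one.mp hc
    have m1 := hf p (by rw [hp]; simp)
    rw [hp] at h hs
    simp only [Finset.prod_singleton] at h hs
    generalize n.factorization p = a at *
    have m2 := Gle 1 p a m1.1.two_le
    have m3 := Gge p a
    have hk : k = 1 := by
      rcases Nat.lt_trichotomy k 1 with hk | hk | hk
      · have : k = 0 := by omega
        subst this
        omega
      · exact hk
      · have : 2 * n ≤ k * n := Nat.mul_le_mul_right _ hk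
        omega
    subst hk
    obtain ⟨a, rfl⟩ : ∃ a', a = a' + 1 := ⟨a - 1, by omega⟩
    rw [Gsucc] at h
    have e : G p a = 5 := by omega
    have hp2 := m1.1.two_le
    match a, e with
    | 0, e => simp [G] at e
    | 1, e =>
      have : p = 4 := by simp [G, Finset.sum_range_succ] at e; omega
      exact absurd m1.1 (by rw [this]; norm_num)
    | a + 2, e =>
      rw [Gsucc] at e
      have m4 := Gtwo p a
      have m5 : 2 ^ 2 ≤ p ^ (a + 1 + 1) :=
        (Nat.pow_le_pow_left hp2 2).trans (Nat.pow_le_pow_right (by omega) (by omega))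
      omega
  · obtain ⟨p, q, hpq, hp⟩ := Finset.card_eq_two.mp hc
    have m1 := hf p (by rw [hp]; simp)
    have m2 := hf q (by rw [hp]; simp)
    rw [hp] at h hs
    rw [Finset.prod_pair hpq] at h hs
    generalize n.factorization p = a at *
    generalize n.factorization q = b at *
    subst hs
    rcases lt_or_gt_of_ne hpq with hl | hl
    · exact two p q a b k m1.1 m2.1 hl m2.2 m1.2 h
    · exact two q p b a k m2.1 m1.1 hl m1.2 m2.2 (by rw [mul_comm (G q b), mul_comm (q ^ b)]; exact h)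

end Pool.Agent.Results.MP_df609a_nt.Two
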